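import Pool.Agent.H61.CM4.TargetsB

/-! FOR: representatives modulo the units. -/

set_option autoImplicit false

open MeasureTheory Set Filter NumberField NumberField.InfinitePlace NumberField.Units
  NumberField.Units.dirichletUnitTheorem Pool.Agent.H65.CM4 Pool.Agent.H25.HK Pool.Agent.H61.CM4
open scoped Real

namespace Pool.Agent.H38.CM4B

theorem pf_FOR : T_FOR := by
  intro k _ _
  have hsm : ∀ (ε : (𝓞 k)ˣ) (u : V2 k), ε • u = (ε : 𝓞 k) • u := fun ε u => rfl
  refine ⟨fun u hu => ?_, hsm, fun u hu => ?_⟩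
  · exact hu.1
  · set u0 : V2 k := Quotient.out (Quotient.mk (MulAction.orbitRel (𝓞 k)ˣ (V2 k)) u) with hu0
    have h1 : (MulAction.orbitRel (𝓞 k)ˣ (V2 k)) u0 u := Quotient.mk_out u
    have h2 : Quotient.mk (MulAction.orbitRel (𝓞 k)ˣ (V2 k)) u0 =
        Quotient.mk (MulAction.orbitRel (𝓞 k)ˣ (V2 k)) u := Quotient.sound h1
    rw [MulAction.orbitRel_apply] at h1
    obtain ⟨ε, hε⟩ := h1
    have hε' : ε • u = u0 := hε
    have hu00 : u0 ≠ 0 := by
      intro h
      rw [h] at hε'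
      exact hu ((smul_eq_zero_iff_eq ε).1 hε')
    have hFo : u0 ∈ Fo k := by
      refine ⟨hu00, ?_⟩
      rw [h2]
    refine ⟨(ε⁻¹, u0), ⟨hFo, ?_⟩, ?_⟩
    · change ε⁻¹ • u0 = u
      rw [← hε', inv_smul_smul]
    · rintro ⟨ε', u'⟩ ⟨hF', he'⟩
      change u' ∈ Fo k at hF'
      change ε' • u' = u at he'
      have h3 : Quotient.mk (MulAction.orbitRel (𝓞 k)ˣ (V2 k)) u' =
          Quotient.mk (MulAction.orbitRel (𝓞 k)ˣ (V2 k)) u := by
        refine Quotient.sound ?_
        change (MulAction.orbitRel (𝓞 k)ˣ (V2 k)) u' u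
        rw [MulAction.orbitRel_apply]
        refine ⟨ε'⁻¹, ?_⟩
        change ε'⁻¹ • u = u'
        rw [← he', inv_smul_smul]
      have h4 : u' = u0 := by
        have h5 := hF'.2
        rw [h3] at h5
        rw [h5]
      have h6 : ε' • u0 = ε⁻¹ • u0 := by
        rw [← h4, he', h4, ← hε', inv_smul_smul]
      have h7 : ε' = ε⁻¹ := by
        rw [hsm, hsm] at h6
        have h8 : ((ε' : 𝓞 k) - ((ε⁻¹ : (𝓞 k)ˣ) : 𝓞 k)) • u0 = 0 := by
          rw [sub_smul, h6, sub_self]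
        rcases smul_eq_zero.1 h8 with h9 | h9
        · exact Units.ext (sub_eq_zero.1 h9)
        · exact absurd h9 hu00
      rw [h7, h4]

end Pool.Agent.H38.CM4B
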