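import Pool.Agent.H38.CM4B.KCD

/-! KCB: the bound of the kernel. -/

set_option autoImplicit false

open MeasureTheory Set Filter NumberField NumberField.InfinitePlace NumberField.Units
  NumberField.Units.dirichletUnitTheorem Pool.Agent.H65.CM4 Pool.Agent.H25.HK Pool.Agent.H61.CM4
open scoped Real

namespace Pool.Agent.H38.CM4B

theorem arg_le (r : ℂ) (h : 0 < r.re) : |r.arg| ≤ |r.im| / r.re := by
  have h1 : |r.arg| < π / 2 := Complex.abs_arg_lt_pi_div_two_iff.2 (Or.inl h)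
  have h2 : |r.arg| ≤ Real.tan |r.arg| := Real.le_tan (abs_nonneg _) h1
  have h3 : Real.tan |r.arg| = |r.im| / r.re := by
    rcases abs_cases r.arg with ⟨h4, h5⟩ | ⟨h4, h5⟩
    · rw [h4, Complex.tan_arg]
      have : 0 ≤ r.im := Complex.arg_nonneg_iff.1 h5
      rw [abs_of_nonneg this]
    · rw [h4, Real.tan_neg, Complex.tan_arg]
      have : r.im < 0 := Complex.arg_neg_iff.1 h5
      rw [abs_of_neg this, neg_div]
  rw [← h3]
  exact h2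

/-- the pointwise bound -/
theorem kcb_pt (n j : ℕ) (C0 τ t c : ℝ) (r : ℂ) (hC0 : 0 ≤ C0)
    (ha : |r.arg| ≤ 1 / (10 * (1 + |t|))) :
    C0 * (1 + |τ|) ^ j * Real.exp (-(π * n * |τ| / 2)) * Real.exp (-(τ - t) ^ 2) *
        (‖r‖ ^ (-c) * Real.exp (|r.arg| * |τ|)) ≤
      (C0 * Real.exp 1 * (1 + |t|) ^ j * Real.exp (-(π * n * |t| / 2)) * ‖r‖ ^ (-c)) *
        ((1 + |τ - t|) ^ j * Real.exp ((π * n / 2 + 1) * |τ - t|) *
          Real.exp (-(τ - t - 0) ^ 2)) := by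
  have ht := abs_nonneg t
  have hx := abs_nonneg (τ - t)
  have h1 : |τ| ≤ |t| + |τ - t| := by
    have := abs_add_le t (τ - t)
    rwa [add_sub_cancel] at this
  have h1' : |t| ≤ |τ| + |τ - t| := by
    have := abs_sub_abs_le_abs_sub t τ
    rw [abs_sub_comm t τ] at this
    linarith
  have h2 : 1 + |τ| ≤ (1 + |t|) * (1 + |τ - t|) := by nlinarith
  have h3 : (1 + |τ|) ^ j ≤ (1 + |t|) ^ j * (1 + |τ - t|) ^ j := by
    rw [← mul_pow]
    exact pow_le_pow_left₀ (by positivity) h2 j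
  have h4 : |r.arg| * |τ| ≤ 1 + |τ - t| := by
    calc |r.arg| * |τ| ≤ 1 / (10 * (1 + |t|)) * ((1 + |t|) * (1 + |τ - t|)) :=
          mul_le_mul ha (by linarith) (abs_nonneg _) (by positivity)
      _ = (1 + |τ - t|) / 10 := by field_simp
      _ ≤ 1 + |τ - t| := by linarith
  have hp := Real.pi_pos
  have h5 : -(π * n * |τ| / 2) ≤ -(π * n * |t| / 2) + π * n / 2 * |τ - t| := by
    have h6 : π * n / 2 * |t| ≤ π * n / 2 * (|τ| + |τ - t|) :=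
      mul_le_mul_of_nonneg_left h1' (by positivity)
    nlinarith
  have hr0 : 0 ≤ ‖r‖ ^ (-c) := Real.rpow_nonneg (norm_nonneg _) _
  have e1 : Real.exp (-(π * n * |τ| / 2)) * Real.exp (|r.arg| * |τ|) ≤
      Real.exp (-(π * n * |t| / 2)) * Real.exp 1 * Real.exp ((π * n / 2 + 1) * |τ - t|) := by
    rw [← Real.exp_add, ← Real.exp_add, ← Real.exp_add]
    apply Real.exp_le_exp.2
    linarith
  rw [sub_zero]
  calc C0 * (1 + |τ|) ^ j * Real.exp (-(π * n * |τ| / 2)) * Real.exp (-(τ - t) ^ 2) *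
        (‖r‖ ^ (-c) * Real.exp (|r.arg| * |τ|)) =
        C0 * ‖r‖ ^ (-c) * Real.exp (-(τ - t) ^ 2) * ((1 + |τ|) ^ j *
        (Real.exp (-(π * n * |τ| / 2)) * Real.exp (|r.arg| * |τ|))) := by ring
    _ ≤ C0 * ‖r‖ ^ (-c) * Real.exp (-(τ - t) ^ 2) * (((1 + |t|) ^ j * (1 + |τ - t|) ^ j) *
        (Real.exp (-(π * n * |t| / 2)) * Real.exp 1 * Real.exp ((π * n / 2 + 1) * |τ - t|))) := by
        refine mul_le_mul_of_nonneg_left (mul_le_mul h3 e1 (by positivity) (by positivity)) ?_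
        positivity
    _ = _ := by ring

/-- the bound on a line -/
theorem kcb_line (hKSH : T_KSH) (n j : ℕ) (C0 κ R : ℝ) (hC0 : 0 ≤ C0) (hκ : 0 < κ)
    (hKIN : ∀ (c τ : ℝ) (s r : ℂ), 0 < c → c ≤ R →
      |s.re| ≤ 3 → r ∈ Complex.slitPlane →
      ‖gG (c + τ * Complex.I) ^ n * Complex.exp ((c + τ * Complex.I - s) ^ 2) *
          r ^ (-(c + τ * Complex.I))‖ ≤
        C0 * (1 + |τ|) ^ j * Real.exp (-(π * n * |τ| / 2)) * Real.exp (-(τ - s.im) ^ 2) *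
          (‖r‖ ^ (-c) * Real.exp (|r.arg| * |τ|)))
    (s r : ℂ) (c : ℝ) (hs : 0 ≤ s.re) (hs' : s.re ≤ 1) (hc : κ ≤ c - s.re) (hcR : c ≤ R)
    (hr : 0 < r.re) (ha : |r.arg| ≤ 1 / (10 * (1 + |s.im|))) :
    ‖Kc n s r‖ ≤ (1 / (2 * π)) * (κ⁻¹ * (C0 * Real.exp 1 *
      ∫ x : ℝ, (1 + |x|) ^ j * Real.exp ((π * n / 2 + 1) * |x|) * Real.exp (-(x - 0) ^ 2))) *
      ((1 + |s.im|) ^ j * Real.exp (-(π * n * |s.im| / 2)) * ‖r‖ ^ (-c)) := by
  have hc0 : 0 < c := by linarith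
  have hrs : r ∈ Complex.slitPlane := Complex.mem_slitPlane_iff.2 (Or.inl hr)
  obtain ⟨-, h1⟩ := hKSH n s r c (by linarith) (by linarith) (by linarith) hc0 hrs
  have hp := Real.pi_pos
  have hI := intg j (π * n / 2 + 1) 0 (by positivity)
  set K : ℝ := C0 * Real.exp 1 * (1 + |s.im|) ^ j * Real.exp (-(π * n * |s.im| / 2)) *
    ‖r‖ ^ (-c) with hK
  have h2 : ∀ τ : ℝ, ‖gG (c + τ * Complex.I) ^ n *
      (Complex.exp ((c + τ * Complex.I - s) ^ 2) / (c + τ * Complex.I - s)) *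
        r ^ (-(c + τ * Complex.I))‖ ≤ κ⁻¹ * K * ((1 + |τ - s.im|) ^ j *
        Real.exp ((π * n / 2 + 1) * |τ - s.im|) * Real.exp (-(τ - s.im - 0) ^ 2)) := by
    intro τ
    have h3 := (hKIN c τ s r hc0 hcR (abs_le.2 ⟨by linarith, by linarith⟩) hrs).trans
      (kcb_pt n j C0 τ s.im c r hC0 ha)
    have e1 : gG (c + τ * Complex.I) ^ n *
        (Complex.exp ((c + τ * Complex.I - s) ^ 2) / (c + τ * Complex.I - s)) *
          r ^ (-(c + τ * Complex.I)) = (c + τ * Complex.I - s)⁻¹ *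
        (gG (c + τ * Complex.I) ^ n * Complex.exp ((c + τ * Complex.I - s) ^ 2) *
          r ^ (-(c + τ * Complex.I))) := by
      rw [div_eq_mul_inv]; ring
    have h4 : κ ≤ ‖(c + τ * Complex.I - s : ℂ)‖ := by
      refine hc.trans ?_
      have h := Complex.re_le_norm (c + τ * Complex.I - s)
      simpa using h
    rw [e1, norm_mul, norm_inv, mul_assoc κ⁻¹]
    exact mul_le_mul (inv_anti₀ hκ h4) h3 (norm_nonneg _) (inv_nonneg.2 hκ.le)
  have hI2 : Integrable (fun τ : ℝ => κ⁻¹ * K * ((1 + |τ - s.im|) ^ j *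
        Real.exp ((π * n / 2 + 1) * |τ - s.im|) * Real.exp (-(τ - s.im - 0) ^ 2))) :=
    (hI.comp_sub_right s.im).const_mul _
  have h5 := norm_integral_le_of_norm_le hI2 (ae_of_all _ h2)
  rw [h1, norm_mul, Complex.norm_real, Real.norm_of_nonneg (by positivity)]
  refine (mul_le_mul_of_nonneg_left h5 (by positivity)).trans (le_of_eq ?_)
  rw [integral_const_mul, integral_sub_right_eq_self (fun x : ℝ => (1 + |x|) ^ j *
    Real.exp ((π * n / 2 + 1) * |x|) * Real.exp (-(x - 0) ^ 2)) s.im, hK]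
  ring

theorem pf_KCB (hKIN : T_KIN) (hKSH : T_KSH) : T_KCB := by
  intro n B κ hκ hκ8
  obtain ⟨C0, j, hC0, hC⟩ := hKIN n (2 + B)
  have hp := Real.pi_pos
  set A : ℝ := (1 / (2 * π)) * (κ⁻¹ * (C0 * Real.exp 1 *
      ∫ x : ℝ, (1 + |x|) ^ j * Real.exp ((π * n / 2 + 1) * |x|) * Real.exp (-(x - 0) ^ 2)))
    with hA
  have hint : 0 ≤ ∫ x : ℝ, (1 + |x|) ^ j * Real.exp ((π * n / 2 + 1) * |x|) *
      Real.exp (-(x - 0) ^ 2) := integral_nonneg fun x => by positivity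
  have hA0 : 0 ≤ A := by positivity
  refine ⟨2 ^ B * A, j, by positivity, ?_⟩
  intro s r hs hr hi
  have hs' := abs_le.1 hs
  have ha : |r.arg| ≤ 1 / (10 * (1 + |s.im|)) := by
    refine (arg_le r hr).trans ?_
    rw [div_le_iff₀ hr]
    refine hi.trans (le_of_eq ?_)
    rw [div_mul_eq_mul_div, one_mul]
  have hn : 0 < ‖r‖ := norm_pos_iff.2 (by rintro rfl; simp at hr)
  have hB0 : (0 : ℝ) ≤ B := Nat.cast_nonneg B
  have e0 : (1 + ‖r‖) ^ (-(B : ℝ)) = ((1 + ‖r‖) ^ B)⁻¹ := by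
    rw [Real.rpow_neg (by positivity), Real.rpow_natCast]
  have key : ∀ c : ℝ, κ ≤ c - s.re → c ≤ 2 + B →
      ‖r‖ ^ (-c) ≤ 2 ^ B * (‖r‖ ^ (-(1 / 2 + 2 * κ)) * (1 + ‖r‖) ^ (-(B : ℝ))) →
      ‖Kc n s r‖ ≤ 2 ^ B * A * (1 + |s.im|) ^ j * Real.exp (-(π * n * |s.im| / 2)) *
        (‖r‖ ^ (-(1 / 2 + 2 * κ)) * (1 + ‖r‖) ^ (-(B : ℝ))) := by
    intro c h1 h2 h3
    refine (kcb_line hKSH n j C0 κ (2 + B) hC0 hκ hC s r c (by linarith [hs'.1])
      (by linarith [hs'.2]) h1 h2 hr ha).trans ?_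
    rw [← hA]
    calc A * ((1 + |s.im|) ^ j * Real.exp (-(π * n * |s.im| / 2)) * ‖r‖ ^ (-c)) ≤
          A * ((1 + |s.im|) ^ j * Real.exp (-(π * n * |s.im| / 2)) *
            (2 ^ B * (‖r‖ ^ (-(1 / 2 + 2 * κ)) * (1 + ‖r‖) ^ (-(B : ℝ))))) :=
          mul_le_mul_of_nonneg_left (mul_le_mul_of_nonneg_left h3 (by positivity)) hA0
      _ = _ := by ring
  rcases le_or_gt ‖r‖ 1 with h1 | h1
  · refine key (1 / 2 + 2 * κ) (by linarith [hs'.2]) (by linarith) ?_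
    have h2 : (1 + ‖r‖) ^ B ≤ 2 ^ B := pow_le_pow_left₀ (by positivity) (by linarith) B
    have h3 : 1 ≤ 2 ^ B * ((1 + ‖r‖) ^ B)⁻¹ := by
      rw [← div_eq_mul_inv, one_le_div (by positivity)]
      exact h2
    rw [e0]
    have h4 : 0 ≤ ‖r‖ ^ (-(1 / 2 + 2 * κ)) := Real.rpow_nonneg hn.le _
    nlinarith
  · refine key (1 + B) (by linarith [hs'.2]) (by linarith) ?_
    have e1 : ‖r‖ ^ (-(1 + (B : ℝ))) = ‖r‖ ^ (-(1 : ℝ)) * (‖r‖ ^ B)⁻¹ := by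
      rw [neg_add, Real.rpow_add hn, Real.rpow_neg hn.le (B : ℝ), Real.rpow_natCast]
    have h2 : ‖r‖ ^ (-(1 : ℝ)) ≤ ‖r‖ ^ (-(1 / 2 + 2 * κ)) :=
      Real.rpow_le_rpow_of_exponent_le h1.le (by linarith)
    have h3 : (‖r‖ ^ B)⁻¹ ≤ 2 ^ B * ((1 + ‖r‖) ^ B)⁻¹ := by
      have h5 : (1 + ‖r‖) ^ B ≤ 2 ^ B * ‖r‖ ^ B := by
        rw [← mul_pow]
        exact pow_le_pow_left₀ (by positivity) (by linarith) B
      rw [← div_eq_mul_inv, inv_eq_one_div, div_le_div_iff₀ (by positivity) (by positivity),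
        one_mul]
      exact h5
    rw [e1, e0]
    calc ‖r‖ ^ (-(1 : ℝ)) * (‖r‖ ^ B)⁻¹ ≤ ‖r‖ ^ (-(1 / 2 + 2 * κ)) *
          (2 ^ B * ((1 + ‖r‖) ^ B)⁻¹) :=
          mul_le_mul h2 h3 (by positivity) (Real.rpow_nonneg hn.le _)
      _ = _ := by ring

end Pool.Agent.H38.CM4B
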