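import Pool.Agent.H38.CM4B.KCD
import Pool.Agent.Ratios.Contour

/-! KSH: the line of integration. -/

set_option autoImplicit false

open MeasureTheory Set Filter NumberField NumberField.InfinitePlace NumberField.Units
  NumberField.Units.dirichletUnitTheorem Pool.Agent.H65.CM4 Pool.Agent.H25.HK Pool.Agent.H61.CM4
open scoped Real

namespace Pool.Agent.H38.CM4B

/-- the integrand -/
noncomputable def Fk (n : ℕ) (s r w : ℂ) : ℂ :=
  gG w ^ n * (Complex.exp ((w - s) ^ 2) / (w - s)) * r ^ (-w)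

theorem expb (j : ℕ) (τ t : ℝ) :
    (1 + |τ|) ^ j * Real.exp (-(τ - t) ^ 2) * Real.exp (π * |τ|) ≤
      ((j.factorial : ℝ) * Real.exp (1 + (π + 2) * |t| + (π + 2) ^ 2 / 2)) *
        Real.exp (-(1 * |τ|)) := by
  have hp := Real.pi_pos
  have h1 : (1 + |τ|) ^ j ≤ (j.factorial : ℝ) * Real.exp (1 + |τ|) := by
    have h2 := Real.pow_div_factorial_le_exp (1 + |τ|) (by positivity) j
    rw [div_le_iff₀ (by positivity)] at h2
    linarith
  have h3 : |τ| ≤ |τ - t| + |t| := by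
    have := abs_add_le (τ - t) t
    rwa [sub_add_cancel] at this
  have h4 : (π + 2) * |τ - t| ≤ (π + 2) ^ 2 / 2 + (τ - t) ^ 2 / 2 := by
    have := sq_nonneg (π + 2 - |τ - t|)
    have h5 := sq_abs (τ - t)
    nlinarith
  have h6 : 1 + |τ| + -(τ - t) ^ 2 + π * |τ| ≤
      1 + (π + 2) * |t| + (π + 2) ^ 2 / 2 + -(1 * |τ|) := by
    have h7 : (π + 2) * |τ| ≤ (π + 2) * (|τ - t| + |t|) :=
      mul_le_mul_of_nonneg_left h3 (by linarith)
    have h8 := sq_nonneg (τ - t)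
    nlinarith
  have e3 : Real.exp (1 + |τ|) * Real.exp (-(τ - t) ^ 2) * Real.exp (π * |τ|) =
      Real.exp (1 + |τ| + -(τ - t) ^ 2 + π * |τ|) := by
    rw [← Real.exp_add, ← Real.exp_add]
  calc (1 + |τ|) ^ j * Real.exp (-(τ - t) ^ 2) * Real.exp (π * |τ|) ≤
        (j.factorial : ℝ) * Real.exp (1 + |τ|) * Real.exp (-(τ - t) ^ 2) *
          Real.exp (π * |τ|) := by gcongr
    _ = (j.factorial : ℝ) * Real.exp (1 + |τ| + -(τ - t) ^ 2 + π * |τ|) := by
        rw [← e3]; ring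
    _ ≤ (j.factorial : ℝ) * Real.exp (1 + (π + 2) * |t| + (π + 2) ^ 2 / 2 + -(1 * |τ|)) :=
        mul_le_mul_of_nonneg_left (Real.exp_le_exp.2 h6) (by positivity)
    _ = _ := by rw [Real.exp_add _ (-(1 * |τ|))]; ring

theorem fk_bound (hKIN : T_KIN) (n : ℕ) (s r : ℂ) (a b : ℝ) (ha : 0 < a) (hs : |s.re| ≤ 3)
    (hsa : s.re < a) (hr : r ∈ Complex.slitPlane) :
    ∃ C : ℝ, ∀ w : ℂ, a ≤ w.re → w.re ≤ b → ‖Fk n s r w‖ ≤ C * Real.exp (-(1 * |w.im|)) := by
  obtain ⟨C0, j, hC0, hC⟩ := hKIN n b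
  have hr0 : r ≠ 0 := Complex.slitPlane_ne_zero hr
  have hn : 0 < ‖r‖ := norm_pos_iff.2 hr0
  refine ⟨(a - s.re)⁻¹ * (C0 * (‖r‖ ^ (-a) + ‖r‖ ^ (-b)) *
    ((j.factorial : ℝ) * Real.exp (1 + (π + 2) * |s.im| + (π + 2) ^ 2 / 2))), ?_⟩
  intro w hwa hwb
  have h1 := hC w.re w.im s r (by linarith) hwb hs hr
  rw [Complex.re_add_im] at h1
  have hd : 0 < a - s.re := by linarith
  have e1 : Fk n s r w = (w - s)⁻¹ * (gG w ^ n * Complex.exp ((w - s) ^ 2) * r ^ (-w)) := by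
    unfold Fk
    rw [div_eq_mul_inv]; ring
  have h2 : a - s.re ≤ ‖w - s‖ := by
    have := Complex.re_le_norm (w - s)
    rw [Complex.sub_re] at this
    linarith
  have h3 : ‖r‖ ^ (-w.re) ≤ ‖r‖ ^ (-a) + ‖r‖ ^ (-b) := by
    have p1 := Real.rpow_nonneg hn.le (-a)
    have p2 := Real.rpow_nonneg hn.le (-b)
    rcases le_or_gt 1 ‖r‖ with h4 | h4
    · have := Real.rpow_le_rpow_of_exponent_le h4 (neg_le_neg hwa)
      linarith
    · have := Real.rpow_le_rpow_of_exponent_ge hn h4.le (neg_le_neg hwb)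
      linarith
  have h5 : Real.exp (-(π * n * |w.im| / 2)) ≤ 1 := by
    rw [Real.exp_le_one_iff]
    have : 0 ≤ π * n * |w.im| / 2 := by positivity
    linarith
  have h6 : Real.exp (|r.arg| * |w.im|) ≤ Real.exp (π * |w.im|) :=
    Real.exp_le_exp.2 (mul_le_mul_of_nonneg_right (Complex.abs_arg_le_pi r) (abs_nonneg _))
  have hrp := Real.rpow_nonneg hn.le (-w.re)
  have h7 : ‖gG w ^ n * Complex.exp ((w - s) ^ 2) * r ^ (-w)‖ ≤
      C0 * (‖r‖ ^ (-a) + ‖r‖ ^ (-b)) *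
        (((j.factorial : ℝ) * Real.exp (1 + (π + 2) * |s.im| + (π + 2) ^ 2 / 2)) *
          Real.exp (-(1 * |w.im|))) := by
    refine h1.trans ?_
    calc C0 * (1 + |w.im|) ^ j * Real.exp (-(π * n * |w.im| / 2)) *
          Real.exp (-(w.im - s.im) ^ 2) * (‖r‖ ^ (-w.re) * Real.exp (|r.arg| * |w.im|)) ≤
          C0 * (1 + |w.im|) ^ j * 1 * Real.exp (-(w.im - s.im) ^ 2) *
          ((‖r‖ ^ (-a) + ‖r‖ ^ (-b)) * Real.exp (π * |w.im|)) := by gcongr
      _ = C0 * (‖r‖ ^ (-a) + ‖r‖ ^ (-b)) *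
          ((1 + |w.im|) ^ j * Real.exp (-(w.im - s.im) ^ 2) * Real.exp (π * |w.im|)) := by ring
      _ ≤ _ := by
          refine mul_le_mul_of_nonneg_left (expb j w.im s.im) ?_
          have p1 := Real.rpow_nonneg hn.le (-a)
          have p2 := Real.rpow_nonneg hn.le (-b)
          positivity
  rw [e1, norm_mul, norm_inv]
  refine (mul_le_mul (inv_anti₀ hd h2) h7 (norm_nonneg _) (inv_nonneg.2 hd.le)).trans
    (le_of_eq ?_)
  ring

theorem fk_diff (hGGB : T_GGB) (n : ℕ) (s r w : ℂ) (hw : 0 < w.re) (hws : s.re < w.re)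
    (hr : r ≠ 0) : DifferentiableAt ℂ (Fk n s r) w := by
  have h1 := hGGB.1 w hw
  have hne : w - s ≠ 0 := by
    intro h
    rw [sub_eq_zero.1 h] at hws
    exact lt_irrefl _ hws
  unfold Fk
  refine DifferentiableAt.mul (DifferentiableAt.mul (h1.pow n)
    (DifferentiableAt.div ?_ ?_ hne)) ?_
  · fun_prop
  · fun_prop
  · exact DifferentiableAt.const_cpow (by fun_prop) (Or.inl hr)

theorem pf_KSH (hGGB : T_GGB) (hKIN : T_KIN) : T_KSH := by
  intro n s r c hs1 hs2 hsc hc hr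
  have hr0 : r ≠ 0 := Complex.slitPlane_ne_zero hr
  have hs : |s.re| ≤ 3 := abs_le.2 ⟨hs1, by linarith⟩
  have hline : Integrable (fun t : ℝ => Fk n s r (c + t * Complex.I)) := by
    obtain ⟨C, hC⟩ := fk_bound hKIN n s r c c hc hs hsc hr
    have hcont : Continuous (fun t : ℝ => Fk n s r (c + t * Complex.I)) := by
      rw [continuous_iff_continuousAt]
      intro t
      have : ContinuousAt (Fk n s r) (c + t * Complex.I) :=
        (fk_diff hGGB n s r _ (by simpa using hc) (by simpa using hsc) hr0).continuousAt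
      exact ContinuousAt.comp (f := fun t : ℝ => (c : ℂ) + t * Complex.I) this (by fun_prop)
    refine ((Pool.Agent.Ratios.integrable_exp_neg_mul_abs 1 one_pos).const_mul C).mono'
      hcont.aestronglyMeasurable ?_
    filter_upwards with t
    have := hC (c + t * Complex.I) (by simp) (by simp)
    simpa using this
  refine ⟨hline, ?_⟩
  have hK : Kc n s r = ((1 / (2 * π) : ℝ) : ℂ) *
      ∫ t : ℝ, Fk n s r (((2 : ℝ) : ℂ) + t * Complex.I) := by
    rw [Complex.ofReal_ofNat]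
    rfl
  rw [hK]
  congr 1
  rcases le_total c 2 with h2 | h2
  · obtain ⟨C, hC⟩ := fk_bound hKIN n s r c 2 hc hs hsc hr
    exact Pool.Agent.Ratios.integral_vertical_shift (Fk n s r) c 2 h2 C 1 one_pos
      (fun z hz1 hz2 => fk_diff hGGB n s r z (by linarith) (by linarith) hr0) hC
  · obtain ⟨C, hC⟩ := fk_bound hKIN n s r 2 c two_pos hs hs2 hr
    exact (Pool.Agent.Ratios.integral_vertical_shift (Fk n s r) 2 c h2 C 1 one_pos
      (fun z hz1 hz2 => fk_diff hGGB n s r z (by linarith) (by linarith) hr0) hC).symm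

end Pool.Agent.H38.CM4B
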